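import Pool.Agent.R212.FQ10

/-!
# MP_c7f95f_an, Question 1: disproof

Uniqueness of regular weak solutions of `(-Δ)^s u - μ D_s²(u) - c u = λ f` in `Ω`, `u = 0` off `Ω`,
fails for EVERY bounded `C²` domain `Ω ⊂ ℝᴺ`, every `s ∈ (0,1)` (in particular `s ∈ (1/2,1)`),
every `c ∈ L^∞(Ω)` (in particular every `c ≤ 0`, e.g. `c = 0`) and every `λ ∈ ℝ`: there are
`μ ∈ L^∞(Ω)` and `f ∈ L^∞(Ω)`, `f ≢ 0`, with two different regular weak solutions (both `≢ 0` if
`λ ≠ 0`).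

Reason: for `w ∈ C_c^∞(Ω)`, `w ≢ 0`, the nonlocal gradient square `D_s²(w)` is continuous and
strictly positive on all of `ℝᴺ` (it never vanishes, unlike `|∇w|²`), so with
`h = (-Δ)^s w - c w`, `μ = h / ((1+β) D_s²(w))`, `λ f = β h / (1+β)` both `w` and `β w` solve the
problem.  The work is in the weak formulation with the very large test class `X_s` (functions for
which `(-Δ)^s ξ` is only assumed to exist pointwise as a principal value and to be bounded): the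
duality `∫ w (-Δ)^s ξ = ∫ ξ (-Δ)^s w` is proved with sup-convolutions and a radial averaging.
-/

open MeasureTheory
open scoped ENNReal

namespace Pool.Agent.Results.MP_c7f95f_an.GradSquareNonunique

open Pool.Agent.R212.FQ

/-- Nonuniqueness of regular weak solutions for every domain, order, `c ∈ L^∞` and `λ`; and the
negation of the statement asked in Q1. -/
theorem result :
    (∀ (N : ℕ) [NeZero N] (s : ℝ), 0 < s → s < 1 → ∀ Ω : Set (E N), IsC2Domain Ω →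
      ∀ c : E N → ℝ, MemLp c ⊤ (volume.restrict Ω) → ∀ lam : ℝ,
      ∃ μ f u₁ u₂ : E N → ℝ, MemLp μ ⊤ (volume.restrict Ω) ∧
        (∀ m : ℝ≥0∞, MemLp f m (volume.restrict Ω)) ∧ volume {x | x ∈ Ω ∧ f x ≠ 0} ≠ 0 ∧
        IsRegularSol s Ω c μ f lam u₁ ∧ IsRegularSol s Ω c μ f lam u₂ ∧ ¬ u₁ =ᵐ[volume] u₂ ∧
        (lam ≠ 0 → ¬ u₁ =ᵐ[volume] (0 : E N → ℝ) ∧ ¬ u₂ =ᵐ[volume] (0 : E N → ℝ))) ∧
    ¬ UniquenessQ1 :=
  ⟨fun _ _ _ hs hs1 _ hΩ _ hc lam => main hs hs1 hΩ hc lam, not_Q1⟩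

end Pool.Agent.Results.MP_c7f95f_an.GradSquareNonunique
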